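import Pool.Agent.V5helper73.GC.Stm0

/-! # Project GC (helper73), job GRID (helper47) -/

set_option autoImplicit false
open MeasureTheory Set

namespace V5helper47.GC

/-- at most `Nst` points of a grid -/
theorem grid_card {E : Set ℝ} {d Nst : ℝ} (hd : 0 < d) (hN : 0 ≤ Nst) {N : ℕ} (hNd : (N : ℝ) * d ≤ 1)
    (h : ∀ (n : ℕ) (θ : ℕ → ℝ), (∀ i : ℕ, i < n → θ i ∈ E) → (∀ i : ℕ, i + 1 < n → θ i + d ≤ θ (i + 1)) →
      θ (n - 1) - θ 0 ≤ 1 → (n : ℝ) ≤ Nst) (u : ℝ) (s : Finset ℕ) (hs : ∀ j ∈ s, j < N ∧ u + j * d ∈ E) :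
    (s.card : ℝ) ≤ Nst := by
  classical
  rcases Nat.eq_zero_or_pos s.card with h0 | h0
  · rw [h0]; simpa using hN
  set n := s.card with hn
  let f : ℕ → ℕ := fun i => if hi : i < n then s.orderEmbOfFin hn.symm ⟨i, hi⟩ else 0
  have hf : ∀ i (hi : i < n), f i = s.orderEmbOfFin hn.symm ⟨i, hi⟩ := fun i hi => by simp only [f, dif_pos hi]
  have hmem : ∀ i, i < n → f i ∈ s := fun i hi => by
    rw [hf i hi]
    exact Finset.orderEmbOfFin_mem _ _ _
  refine h n (fun i => u + f i * d) (fun i hi => (hs _ (hmem i hi)).2) (fun i hi => ?_) ?_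
  · have h1 : f i < f (i + 1) := by
      rw [hf i (by omega), hf (i + 1) hi]
      exact (s.orderEmbOfFin hn.symm).strictMono (Fin.mk_lt_mk.2 (Nat.lt_succ_self i))
    have h2 : (f i : ℝ) + 1 ≤ f (i + 1) := by exact_mod_cast h1
    nlinarith
  · have h1 : f (n - 1) < N := (hs _ (hmem _ (by omega))).1
    have h2 : (f (n - 1) : ℝ) ≤ N := by exact_mod_cast h1.le
    have h3 : (0 : ℝ) ≤ f 0 := Nat.cast_nonneg _
    nlinarith

theorem slice {E : Set ℝ} (hE : MeasurableSet E) {d Nst : ℝ} (hd : 0 < d) (hN : 0 ≤ Nst) {N : ℕ}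
    (hNd : (N : ℝ) * d ≤ 1)
    (h : ∀ (n : ℕ) (θ : ℕ → ℝ), (∀ i : ℕ, i < n → θ i ∈ E) → (∀ i : ℕ, i + 1 < n → θ i + d ≤ θ (i + 1)) →
      θ (n - 1) - θ 0 ≤ 1 → (n : ℝ) ≤ Nst) (α : ℝ) :
    volume (E ∩ Ioc α (α + N * d)) ≤ ENNReal.ofReal Nst * ENNReal.ofReal d := by
  classical
  have h1 : E ∩ Ioc α (α + N * d) ⊆ ⋃ j ∈ Finset.range N, E ∩ Ioc (α + j * d) (α + j * d + d) := by
    rintro x ⟨hx, hx1, hx2⟩
    -- j = ⌈(x - α) / d⌉ - 1
    set m := ⌈(x - α) / d⌉₊ with hm
    have hpos : 0 < (x - α) / d := div_pos (by linarith) hd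
    have hm0 : 0 < m := Nat.ceil_pos.2 hpos
    have hm1 : (x - α) / d ≤ m := Nat.le_ceil _
    have hm2 : (m : ℝ) < (x - α) / d + 1 := Nat.ceil_lt_add_one hpos.le
    have hmN : m ≤ N := Nat.ceil_le.2 (by rw [div_le_iff₀ hd]; linarith)
    rw [div_le_iff₀ hd] at hm1
    have hm3 : ((m : ℝ) - 1) * d < x - α := by
      rw [← lt_div_iff₀ hd]
      linarith
    refine mem_iUnion₂.2 ⟨m - 1, Finset.mem_range.2 (by omega), hx, ?_, ?_⟩
    · rw [Nat.cast_sub hm0, Nat.cast_one]
      linarith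
    · rw [Nat.cast_sub hm0, Nat.cast_one]
      linarith
  have h2 : ∀ j : ℕ, volume (E ∩ Ioc (α + j * d) (α + j * d + d)) =
      ∫⁻ u in Ioc α (α + d), E.indicator (fun _ => (1 : ENNReal)) (u + j * d) := by
    intro j
    rw [← lintegral_indicator measurableSet_Ioc,
      ← lintegral_indicator_one (hE.inter measurableSet_Ioc),
      ← lintegral_add_right_eq_self _ ((j : ℝ) * d)]
    refine lintegral_congr fun u => ?_
    by_cases h3 : u ∈ Ioc α (α + d)
    · have h4 : u + j * d ∈ Ioc (α + j * d) (α + j * d + d) := ⟨by linarith [h3.1], by linarith [h3.2]⟩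
      rw [indicator_of_mem h3]
      by_cases h5 : u + j * d ∈ E
      · rw [indicator_of_mem h5, indicator_of_mem (show u + j * d ∈ E ∩ Ioc (α + j * d) (α + j * d + d) from ⟨h5, h4⟩)]
        rfl
      · rw [indicator_of_notMem (fun h6 => h5 h6.1), indicator_of_notMem h5]
    · rw [indicator_of_notMem h3, indicator_of_notMem]
      rintro ⟨-, h6, h7⟩
      exact h3 ⟨by linarith, by linarith⟩
  calc volume (E ∩ Ioc α (α + N * d))
      ≤ volume (⋃ j ∈ Finset.range N, E ∩ Ioc (α + j * d) (α + j * d + d)) := measure_mono h1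
    _ ≤ ∑ j ∈ Finset.range N, volume (E ∩ Ioc (α + j * d) (α + j * d + d)) := measure_biUnion_finset_le _ _
    _ = ∑ j ∈ Finset.range N, ∫⁻ u in Ioc α (α + d), E.indicator (fun _ => (1 : ENNReal)) (u + j * d) :=
        Finset.sum_congr rfl fun j _ => h2 j
    _ = ∫⁻ u in Ioc α (α + d), ∑ j ∈ Finset.range N, E.indicator (fun _ => (1 : ENNReal)) (u + j * d) := by
        rw [lintegral_finset_sum]
        intro j _
        exact (measurable_const.indicator hE).comp (measurable_id.add_const _)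
    _ ≤ ∫⁻ _ in Ioc α (α + d), ENNReal.ofReal Nst := by
        refine lintegral_mono fun u => ?_
        have h3 : ∑ j ∈ Finset.range N, E.indicator (fun _ => (1 : ENNReal)) (u + j * d) =
            (((Finset.range N).filter fun j : ℕ => u + j * d ∈ E).card : ENNReal) := by
          rw [Finset.card_filter, Nat.cast_sum]
          refine Finset.sum_congr rfl fun j _ => ?_
          rw [indicator_apply]
          split_ifs <;> simp
        show ∑ j ∈ Finset.range N, E.indicator (fun _ => (1 : ENNReal)) (u + j * d) ≤ ENNReal.ofReal Nst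
        rw [h3, ← ENNReal.ofReal_natCast]
        refine ENNReal.ofReal_le_ofReal ?_
        refine grid_card hd hN hNd h u _ fun j hj => ?_
        rw [Finset.mem_filter, Finset.mem_range] at hj
        exact hj
    _ = ENNReal.ofReal Nst * ENNReal.ofReal d := by
        rw [setLIntegral_const, Real.volume_Ioc, add_sub_cancel_left]

/-- job GRID -/
theorem t_GRID : V5helper73.GC.S_GRID := by
  intro E hE d Nst hd hd4 hN h
  set N := ⌊1 / d⌋₊ with hNdef
  have h1 : (N : ℝ) * d ≤ 1 := by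
    rw [← le_div_iff₀ hd]
    exact Nat.floor_le (by positivity)
  have h2 : 3 / 4 ≤ (N : ℝ) * d := by
    have h3 : 1 / d < N + 1 := Nat.lt_floor_add_one _
    rw [div_lt_iff₀ hd] at h3
    linarith
  set w := (N : ℝ) * d with hw
  have hcov : E ∩ Ioc 0 (2 * Real.pi) ⊆ ⋃ m ∈ Finset.range 9, E ∩ Ioc ((m : ℝ) * w) ((m : ℝ) * w + N * d) := by
    rintro x ⟨hx, hx1, hx2⟩
    have hw0 : 0 < w := by linarith
    have hpi : Real.pi < 3.15 := Real.pi_lt_d2
    set m := ⌈x / w⌉₊ with hm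
    have hpos : 0 < x / w := div_pos hx1 hw0
    have hm0 : 0 < m := Nat.ceil_pos.2 hpos
    have hm1 : x / w ≤ m := Nat.le_ceil _
    have hm2 : (m : ℝ) < x / w + 1 := Nat.ceil_lt_add_one hpos.le
    have hmN : m ≤ 9 := Nat.ceil_le.2 (by
      rw [div_le_iff₀ hw0]
      push_cast
      nlinarith)
    rw [div_le_iff₀ hw0] at hm1
    have hm3 : ((m : ℝ) - 1) * w < x := by
      rw [← lt_div_iff₀ hw0]
      linarith
    refine mem_iUnion₂.2 ⟨m - 1, Finset.mem_range.2 (by omega), hx, ?_, ?_⟩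
    · rw [Nat.cast_sub hm0, Nat.cast_one]
      exact hm3
    · rw [Nat.cast_sub hm0, Nat.cast_one, ← hw]
      linarith
  calc volume (E ∩ Ioc 0 (2 * Real.pi))
      ≤ volume (⋃ m ∈ Finset.range 9, E ∩ Ioc ((m : ℝ) * w) ((m : ℝ) * w + N * d)) := measure_mono hcov
    _ ≤ ∑ m ∈ Finset.range 9, volume (E ∩ Ioc ((m : ℝ) * w) ((m : ℝ) * w + N * d)) := measure_biUnion_finset_le _ _
    _ ≤ ∑ _m ∈ Finset.range 9, ENNReal.ofReal Nst * ENNReal.ofReal d :=
        Finset.sum_le_sum fun m _ => slice hE hd hN h1 h _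
    _ = ENNReal.ofReal (9 * d * Nst) := by
        rw [Finset.sum_const, Finset.card_range, nsmul_eq_mul, ← ENNReal.ofReal_mul hN,
          ← ENNReal.ofReal_natCast, ← ENNReal.ofReal_mul (by positivity)]
        congr 1
        push_cast
        ring

end V5helper47.GC
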