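import Pool.Agent.V5helper73.GC.Stm0

/-! # Project GC (helper73), job HAR (helper47) -/

set_option autoImplicit false
open Finset

namespace V5helper47.GC

open V5helper73.GC (bk)

/-- lower bound for the angle -/
theorem bk_ge {ρ δ k : ℝ} (h1 : 1 / 2 ≤ ρ) (h2 : ρ < 1) (hk : 0 < k) (hδ : k * ((1 - ρ) / 2) ≤ δ) (hδ1 : δ ≤ 1) :
    Real.pi / 2 - 8 / k - δ ≤ bk ρ δ := by
  have hδ0 : 0 < δ := lt_of_lt_of_le (mul_pos hk (by linarith)) hδ
  have hs : 3 / 4 * δ ≤ Real.sin δ := by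
    have h3 := Real.sin_gt_sub_cube hδ0
    have h4 : δ ^ 3 ≤ δ := by
      have : δ ^ 3 ≤ δ ^ 1 := pow_le_pow_of_le_one hδ0.le hδ1 (by norm_num)
      simpa using this
    linarith
  have hs0 : 0 < Real.sin δ := by linarith
  have hc : 1 - δ ^ 2 / 2 ≤ Real.cos δ := Real.one_sub_sq_div_two_le_cos
  have hc1 : Real.cos δ ≤ 1 := Real.cos_le_one δ
  have hden : 0 < 1 - ρ * Real.cos δ := by nlinarith
  have hnum : 0 < ρ * Real.sin δ := mul_pos (by linarith) hs0
  set Y := (1 - ρ * Real.cos δ) / (ρ * Real.sin δ) with hY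
  have hY0 : 0 < Y := div_pos hden hnum
  have hX : ρ * Real.sin δ / (1 - ρ * Real.cos δ) = Y⁻¹ := by rw [hY, inv_div]
  have h4 : bk ρ δ = Real.pi / 2 - Real.arctan Y := by
    rw [bk, hX, Real.arctan_inv_of_pos hY0]
  have h5 : Real.arctan Y ≤ Y := by
    have h6 := Real.arctan_nonneg.2 hY0.le
    have h7 : Real.arctan Y ≤ Real.tan (Real.arctan Y) := Real.le_tan h6 (Real.arctan_lt_pi_div_two Y)
    rwa [Real.tan_arctan] at h7
  have h6 : Y ≤ 8 / k + δ := by
    rw [hY, div_le_iff₀ hnum]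
    have h7 : (1 - ρ) * k ≤ 2 * δ := by nlinarith
    have h8 : 1 - ρ * Real.cos δ ≤ (1 - ρ) + ρ * (δ ^ 2 / 2) := by nlinarith
    have h9 : 3 / 4 * δ * ρ ≤ ρ * Real.sin δ := by nlinarith
    have h10 : (8 / k + δ) * (3 / 4 * δ * ρ) ≤ (8 / k + δ) * (ρ * Real.sin δ) :=
      mul_le_mul_of_nonneg_left h9 (by positivity)
    have h11 : (1 - ρ) ≤ 8 / k * (3 / 4 * δ * ρ) := by
      rw [div_mul_eq_mul_div, le_div_iff₀ hk]
      nlinarith
    have h12 : ρ * (δ ^ 2 / 2) ≤ δ * (3 / 4 * δ * ρ) := by nlinarith [mul_nonneg (by linarith : (0:ℝ) ≤ ρ) (sq_nonneg δ)]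
    nlinarith
  rw [h4]
  linarith

theorem log_sum (n : ℕ) : (n : ℝ) * Real.log n - n ≤ ∑ j ∈ range n, Real.log ((j : ℝ) + 1) := by
  induction n with
  | zero => simp
  | succ n ih =>
    rw [sum_range_succ]
    rcases Nat.eq_zero_or_pos n with rfl | hn
    · simp
    have hn' : (0 : ℝ) < n := by exact_mod_cast hn
    have h1 : Real.log ((n : ℝ) + 1) - Real.log n ≤ 1 / n := by
      rw [← Real.log_div (by positivity) hn'.ne']
      have h2 := Real.log_le_sub_one_of_pos (show 0 < ((n : ℝ) + 1) / n by positivity)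
      have h3 : ((n : ℝ) + 1) / n - 1 = 1 / n := by field_simp; ring
      linarith
    have h2 : (n : ℝ) * (Real.log ((n : ℝ) + 1) - Real.log n) ≤ 1 := by
      have := mul_le_mul_of_nonneg_left h1 hn'.le
      rwa [mul_one_div_cancel hn'.ne'] at this
    push_cast
    nlinarith

theorem refl_sum (F : ℝ → ℝ) (j : ℕ) : ∑ l ∈ range j, F ((j : ℝ) - l) = ∑ i ∈ range j, F ((i : ℝ) + 1) := by
  rw [← sum_range_reflect]
  refine sum_congr rfl fun i hi => ?_
  congr 1
  have h := mem_range.1 hi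
  rw [show ((j - 1 - i : ℕ) : ℝ) = (j : ℝ) - 1 - i by
    rw [Nat.cast_sub (by omega), Nat.cast_sub (by omega), Nat.cast_one]]
  ring

theorem A_ge (n : ℕ) : (n : ℝ) * Real.log n - n ≤ ∑ j ∈ range n, ∑ l ∈ range j, 1 / ((j : ℝ) - l) := by
  refine (log_sum n).trans (sum_le_sum fun j _ => ?_)
  rw [refl_sum (fun x => 1 / x) j]
  have h := log_add_one_le_harmonic j
  rw [harmonic] at h
  push_cast at h
  refine h.trans (le_of_eq (sum_congr rfl fun i _ => ?_))
  rw [one_div]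

theorem sq_sum (j : ℕ) : ∑ i ∈ range (j + 1), 1 / ((i : ℝ) + 1) ^ 2 ≤ 2 - 1 / ((j : ℝ) + 1) := by
  induction j with
  | zero => norm_num
  | succ j ih =>
    rw [sum_range_succ]
    have h1 : 1 / (((j + 1 : ℕ) : ℝ) + 1) ^ 2 ≤ 1 / ((j : ℝ) + 1) - 1 / (((j + 1 : ℕ) : ℝ) + 1) := by
      push_cast
      rw [div_sub_div _ _ (by positivity) (by positivity), div_le_div_iff₀ (by positivity) (by positivity)]
      have : (0 : ℝ) ≤ j := Nat.cast_nonneg j
      nlinarith
    linarith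

theorem B_le (n : ℕ) : ∑ j ∈ range n, ∑ l ∈ range j, 1 / ((j : ℝ) - l) ^ 2 ≤ 2 * (n : ℝ) := by
  refine (sum_le_sum (g := fun _ => (2 : ℝ)) fun j _ => ?_).trans (by simp [mul_comm])
  rw [refl_sum (fun x => 1 / x ^ 2) j]
  rcases j with _ | j
  · simp
  · refine (sq_sum j).trans ?_
    have : 0 ≤ 1 / ((j : ℝ) + 1) := by positivity
    linarith

theorem reindex (F : ℕ → ℕ → ℝ) (n : ℕ) : ∑ j ∈ range n, ∑ l ∈ range j, F j l =
    ∑ r ∈ range n, ∑ l ∈ range (n - 1 - r), F (l + r + 1) l := by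
  induction n with
  | zero => simp
  | succ n ih =>
    rw [sum_range_succ, ih, sum_range_succ (fun r => ∑ l ∈ range (n + 1 - 1 - r), F (l + r + 1) l)]
    have h0 : n + 1 - 1 - n = 0 := by omega
    rw [h0, sum_range_zero, add_zero]
    have h1 : ∀ r ∈ range n, ∑ l ∈ range (n + 1 - 1 - r), F (l + r + 1) l =
        ∑ l ∈ range (n - 1 - r), F (l + r + 1) l + F n (n - 1 - r) := by
      intro r hr
      have hr' := mem_range.1 hr
      rw [show n + 1 - 1 - r = (n - 1 - r) + 1 by omega, sum_range_succ]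
      congr 2
      omega
    rw [sum_congr rfl h1, sum_add_distrib, sum_range_reflect (fun l => F n l) n]

theorem tele (θ : ℕ → ℝ) (m r : ℕ) : ∑ l ∈ range m, (θ (l + r) - θ l) = ∑ i ∈ range r, (θ (m + i) - θ i) := by
  induction r with
  | zero => simp
  | succ r ih =>
    rw [sum_range_succ, ← ih]
    have h1 : ∀ l ∈ range m, θ (l + (r + 1)) - θ l = (θ (l + r) - θ l) + (θ (l + 1 + r) - θ (l + r)) := by
      intro l _
      rw [show l + (r + 1) = l + 1 + r by omega]
      ring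
    rw [sum_congr rfl h1, sum_add_distrib, sum_range_sub (fun l => θ (l + r)) m, zero_add]

theorem C_le {n : ℕ} {θ : ℕ → ℝ} (hmono : ∀ i j, i ≤ j → j < n → θ i ≤ θ j) (h1 : θ (n - 1) - θ 0 ≤ 1) :
    ∑ j ∈ range n, ∑ l ∈ range j, (θ j - θ l) / ((j : ℝ) - l) ≤ n := by
  rw [reindex (fun j l => (θ j - θ l) / ((j : ℝ) - l)) n]
  refine (sum_le_sum (g := fun _ => (1 : ℝ)) fun r hr => ?_).trans (by simp)
  have hr' := mem_range.1 hr
  have h2 : ∀ l ∈ range (n - 1 - r), (θ (l + r + 1) - θ l) / (((l + r + 1 : ℕ) : ℝ) - l) =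
      (θ (l + (r + 1)) - θ l) / ((r : ℝ) + 1) := by
    intro l _
    push_cast
    rw [show l + (r + 1) = l + r + 1 by omega]
    congr 1
    ring
  rw [sum_congr rfl h2, ← sum_div, tele, div_le_one (by positivity)]
  refine (sum_le_sum (g := fun _ => (1 : ℝ)) fun i hi => ?_).trans (by simp)
  have hi' := mem_range.1 hi
  have h3 := hmono (n - 1 - r + i) (n - 1) (by omega) (by omega)
  have h4 := hmono 0 i (by omega) (by omega)
  linarith

/-- job HAR -/
theorem t_HAR : V5helper73.GC.S_HAR := by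
  intro ρ d hρ hρ1 hd n θ hgap hspread
  have hd0 : 0 < d := by linarith
  rcases Nat.eq_zero_or_pos n with rfl | hn
  · simp
  -- monotonicity
  have hgap' : ∀ l k, l + k < n → θ l + k * d ≤ θ (l + k) := by
    intro l k
    induction k with
    | zero => intro _; simp
    | succ k ih =>
      intro h
      have h1 := ih (by omega)
      have h2 := hgap (l + k) (by omega)
      push_cast
      rw [← add_assoc l k 1]
      linarith
  have hmono : ∀ i j, i ≤ j → j < n → θ i ≤ θ j := by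
    intro i j hij hj
    have h := hgap' i (j - i) (by omega)
    rw [Nat.add_sub_cancel' hij] at h
    have : (0 : ℝ) ≤ ((j - i : ℕ) : ℝ) * d := by positivity
    linarith
  have hterm : ∀ j ∈ range n, ∀ l ∈ range j,
      Real.pi / 2 * (1 / ((j : ℝ) - l)) - 8 * (1 / ((j : ℝ) - l) ^ 2) - (θ j - θ l) / ((j : ℝ) - l) ≤
        bk ρ (θ j - θ l) / ((j : ℝ) - l) := by
    intro j hj l hl
    have hj' := mem_range.1 hj
    have hl' := mem_range.1 hl
    have hk : (0 : ℝ) < (j : ℝ) - l := by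
      have : (l : ℝ) < j := by exact_mod_cast hl'
      linarith
    have h1 : ((j : ℝ) - l) * ((1 - ρ) / 2) ≤ θ j - θ l := by
      have h := hgap' l (j - l) (by omega)
      rw [Nat.add_sub_cancel' hl'.le, Nat.cast_sub hl'.le] at h
      have := mul_le_mul_of_nonneg_left hd hk.le
      linarith
    have h2 : θ j - θ l ≤ 1 := by
      have h3 := hmono j (n - 1) (by omega) (by omega)
      have h4 := hmono 0 l (by omega) (by omega)
      linarith
    have h3 := div_le_div_of_nonneg_right (bk_ge hρ hρ1 hk h1 h2) hk.le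
    refine le_trans (le_of_eq ?_) h3
    field_simp
  have hsum : Real.pi / 2 * (∑ j ∈ range n, ∑ l ∈ range j, 1 / ((j : ℝ) - l)) -
      8 * (∑ j ∈ range n, ∑ l ∈ range j, 1 / ((j : ℝ) - l) ^ 2) -
      ∑ j ∈ range n, ∑ l ∈ range j, (θ j - θ l) / ((j : ℝ) - l) ≤
      ∑ j ∈ range n, ∑ l ∈ range j, bk ρ (θ j - θ l) / ((j : ℝ) - l) := by
    rw [mul_sum, mul_sum, ← sum_sub_distrib, ← sum_sub_distrib]
    refine sum_le_sum fun j hj => ?_
    rw [mul_sum, mul_sum, ← sum_sub_distrib, ← sum_sub_distrib]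
    exact sum_le_sum fun l hl => hterm j hj l hl
  have hA := A_ge n
  have hB := B_le n
  have hC := C_le hmono hspread
  have hpi := Real.pi_gt_three
  have hpi0 := Real.pi_pos
  have hn' : (0 : ℝ) < n := by exact_mod_cast hn
  have h1 : Real.pi / 2 * ((n : ℝ) * Real.log n - n) - 8 * (2 * n) - n ≤
      ∑ j ∈ range n, ∑ l ∈ range j, bk ρ (θ j - θ l) / ((j : ℝ) - l) := by
    have := mul_le_mul_of_nonneg_left hA (show 0 ≤ Real.pi / 2 by positivity)
    linarith
  have h2 := mul_le_mul_of_nonneg_left h1 (show 0 ≤ 2 / Real.pi by positivity)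
  refine le_trans ?_ h2
  have h3 : 2 / Real.pi * (Real.pi / 2 * ((n : ℝ) * Real.log n - n) - 8 * (2 * n) - n) =
      (n : ℝ) * Real.log n - n - 34 * n / Real.pi := by
    field_simp
    ring
  rw [h3]
  have h4 : 34 * (n : ℝ) / Real.pi ≤ 19 * n := by
    rw [div_le_iff₀ hpi0]
    nlinarith
  linarith

end V5helper47.GC
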